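import Pool.Agent.Helper19.HM.Goals

/-!
# Packet HM-CYC (MP_bb32d1_al)
-/

set_option autoImplicit false

namespace Pool.Agent.Helper62.HM

noncomputable section

open Pool.Agent.Helper19.HM Pool.Agent.Helper19.SQ Module

section

variable {n : ℕ} {V : Type} [AddCommGroup V] [Module ℂ V] (H : HMod n V)

lemma op_nil : H.op [] = 1 := rfl

lemma op_cons (a : Fin n ⊕ Fin n) (w : List (Fin n ⊕ Fin n)) :
    H.op (a :: w) = H.a a * H.op w := by
  unfold HMod.op
  rw [List.map_cons, List.prod_cons]

lemma s_a (g : Equiv.Perm (Fin n)) (a : Fin n ⊕ Fin n) :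
    H.s g * H.a a = H.a (Sum.map g g a) * H.s g := by
  cases a with
  | inl i => exact H.sx g i
  | inr i => exact H.sy g i

lemma s_op {δ : V} (hδ : δ ∈ H.sg) (g : Equiv.Perm (Fin n)) (w : List (Fin n ⊕ Fin n)) :
    H.s g (H.op w δ) = ((Equiv.Perm.sign g : ℤ) : ℂ) • H.op (w.map (Sum.map g g)) δ := by
  induction w with
  | nil => exact hδ g
  | cons a w ih =>
    rw [op_cons, List.map_cons, op_cons]
    have h1 : H.s g ((H.a a * H.op w) δ) = (H.s g * H.a a) (H.op w δ) := rfl
    rw [h1, s_a]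
    have h2 : (H.a (Sum.map g g a) * H.s g) (H.op w δ) =
        H.a (Sum.map g g a) (H.s g (H.op w δ)) := rfl
    rw [h2, ih, map_smul]
    rfl

/-- The submodule spanned by all words. -/
def VV (δ : V) : Submodule ℂ V := Submodule.span ℂ (Set.range fun w => H.op w δ)

lemma op_mem (δ : V) (w : List (Fin n ⊕ Fin n)) : H.op w δ ∈ VV H δ :=
  Submodule.subset_span ⟨w, rfl⟩

lemma stab_of (δ : V) (T : Module.End ℂ V) (h : ∀ w, T (H.op w δ) ∈ VV H δ) :
    ∀ v ∈ VV H δ, T v ∈ VV H δ := by
  intro v hv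
  have hle : VV H δ ≤ (VV H δ).comap T := by
    refine Submodule.span_le.2 ?_
    rintro _ ⟨w, rfl⟩
    exact h w
  exact hle hv

lemma a_stab (δ : V) (a : Fin n ⊕ Fin n) : ∀ v ∈ VV H δ, H.a a v ∈ VV H δ := by
  apply stab_of
  intro w
  have h1 : H.a a (H.op w δ) = H.op (a :: w) δ := by rw [op_cons]; rfl
  rw [h1]
  exact op_mem H δ _

lemma s_stab {δ : V} (hδ : δ ∈ H.sg) (g : Equiv.Perm (Fin n)) :
    ∀ v ∈ VV H δ, H.s g v ∈ VV H δ := by
  apply stab_of
  intro w
  rw [s_op H hδ]
  exact Submodule.smul_mem _ _ (op_mem H δ _)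

/-- Restriction to a stable submodule. -/
def rest (U : Submodule ℂ V) (hx : ∀ i, ∀ v ∈ U, H.x i v ∈ U) (hy : ∀ i, ∀ v ∈ U, H.y i v ∈ U)
    (hs : ∀ g, ∀ v ∈ U, H.s g v ∈ U) : HMod n U where
  x i := (H.x i).restrict (hx i)
  y i := (H.y i).restrict (hy i)
  s g := (H.s g).restrict (hs g)
  s_one := by
    apply LinearMap.ext
    intro v
    apply Subtype.ext
    have := congrArg (fun T : Module.End ℂ V => T v.1) H.s_one
    exact this
  s_mul := by
    intro g h
    apply LinearMap.ext
    intro v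
    apply Subtype.ext
    have := congrArg (fun T : Module.End ℂ V => T v.1) (H.s_mul g h)
    exact this
  xx := by
    intro i j
    apply LinearMap.ext
    intro v
    apply Subtype.ext
    have := congrArg (fun T : Module.End ℂ V => T v.1) (H.xx i j)
    exact this
  yy := by
    intro i j
    apply LinearMap.ext
    intro v
    apply Subtype.ext
    have := congrArg (fun T : Module.End ℂ V => T v.1) (H.yy i j)
    exact this
  sx := by
    intro g i
    apply LinearMap.ext
    intro v
    apply Subtype.ext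
    have := congrArg (fun T : Module.End ℂ V => T v.1) (H.sx g i)
    exact this
  sy := by
    intro g i
    apply LinearMap.ext
    intro v
    apply Subtype.ext
    have := congrArg (fun T : Module.End ℂ V => T v.1) (H.sy g i)
    exact this
  sumx := by
    apply LinearMap.ext
    intro v
    apply Subtype.ext
    have h1 := congrArg (fun T : Module.End ℂ V => T v.1) H.sumx
    simp only [LinearMap.sum_apply, LinearMap.zero_apply] at h1
    rw [LinearMap.sum_apply, Submodule.coe_sum]
    exact h1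
  sumy := by
    apply LinearMap.ext
    intro v
    apply Subtype.ext
    have h1 := congrArg (fun T : Module.End ℂ V => T v.1) H.sumy
    simp only [LinearMap.sum_apply, LinearMap.zero_apply] at h1
    rw [LinearMap.sum_apply, Submodule.coe_sum]
    exact h1
  yx := by
    intro i j hij
    apply LinearMap.ext
    intro v
    apply Subtype.ext
    have := congrArg (fun T : Module.End ℂ V => T v.1) (H.yx i j hij)
    exact this

lemma G_mono (δ : V) {m m' : ℕ} (h : m ≤ m') : H.G δ m ≤ H.G δ m' := by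
  apply Submodule.span_mono
  rintro v ⟨w, hw, rfl⟩
  exact ⟨w, by omega, rfl⟩

lemma op_mem_G (δ : V) (w : List (Fin n ⊕ Fin n)) : H.op w δ ∈ H.G δ (w.length + 1) :=
  Submodule.subset_span ⟨w, by omega, rfl⟩

lemma exists_K [FiniteDimensional ℂ V] (δ : V) (h : VV H δ = ⊤) : ∃ K, H.G δ K = ⊤ := by
  have hN : IsNoetherian ℂ V := inferInstance
  obtain ⟨K, hK⟩ := (monotone_stabilizes_iff_noetherian.2 hN)
    ⟨fun m => H.G δ m, fun a b hab => G_mono H δ hab⟩
  refine ⟨K, ?_⟩
  rw [eq_top_iff, ← h]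
  refine Submodule.span_le.2 ?_
  rintro _ ⟨w, rfl⟩
  rw [SetLike.mem_coe]
  have h1 := G_mono H δ (le_max_right K (w.length + 1)) (op_mem_G H δ w)
  have h2 : H.G δ K = H.G δ (max K (w.length + 1)) := hK _ (le_max_left _ _)
  rw [h2]
  exact h1

end

/-- **CYC**. -/
theorem c_cyc (h1 : S_SGM) (h2 : S_SG1) : S_CYC := by
  intro n V _ _ _ _ H hn
  have hpow : 0 < (n + 1) ^ (n - 1) := Nat.pow_pos (Nat.succ_pos n)
  have a1 := h1 n V H.toHMod hn
  have a2 := h2 n V H hn
  have a3 : 0 < finrank ℂ V := finrank_pos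
  have a4 : 0 < finrank ℂ H.sg := by
    by_contra hcon
    have : finrank ℂ H.sg = 0 := by omega
    rw [this] at a1
    omega
  have a5 : finrank ℂ H.sg = 1 := by omega
  rw [a5, mul_one] at a1
  refine ⟨a1.symm, ?_⟩
  obtain ⟨v, hv0, hv⟩ := finrank_eq_one_iff'.1 a5
  refine ⟨v.1, fun h => hv0 (Subtype.ext h), ?_, ?_⟩
  · apply le_antisymm
    · intro w hw
      obtain ⟨c, hc⟩ := hv ⟨w, hw⟩
      rw [Submodule.mem_span_singleton]
      exact ⟨c, congrArg Subtype.val hc⟩
    · rw [Submodule.span_singleton_le_iff_mem]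
      exact v.2
  · apply exists_K H.toHMod
    set δ : V := v.1 with hδ
    have hδs : δ ∈ H.toHMod.sg := v.2
    set H' : HMod n (VV H.toHMod δ) := rest H.toHMod (VV H.toHMod δ)
      (fun i => a_stab H.toHMod δ (Sum.inl i)) (fun i => a_stab H.toHMod δ (Sum.inr i))
      (s_stab H.toHMod hδs) with hH'
    have b1 := h1 n (VV H.toHMod δ) H' hn
    have b2 : 0 < finrank ℂ H'.sg := by
      have hmem : (⟨δ, op_mem H.toHMod δ []⟩ : VV H.toHMod δ) ∈ H'.sg := by
        intro g
        apply Subtype.ext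
        exact hδs g
      have : Nontrivial H'.sg := by
        refine ⟨⟨⟨_, hmem⟩, 0, ?_⟩⟩
        intro hcon
        apply hv0
        have e1 := congrArg (fun z : H'.sg => (z.1.1 : V)) hcon
        exact Subtype.ext e1
      exact finrank_pos
    apply Submodule.eq_top_of_finrank_eq
    apply le_antisymm (Submodule.finrank_le _)
    rw [← a1, ← b1]
    exact Nat.le_mul_of_pos_right _ b2

end

end Pool.Agent.Helper62.HM
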