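import Pool.Agent.Helper19.HM.Goals

/-!
# Packet HM-HEU (MP_bb32d1_al)
-/

set_option autoImplicit false

namespace Pool.Agent.Helper62.HM

noncomputable section

open Pool.Agent.Helper19.HM Pool.Agent.Helper19.SQ Module

section

variable {n : ℕ} {V : Type} [AddCommGroup V] [Module ℂ V] (H : HMod n V)

lemma sx_swap (i j : Fin n) :
    H.s (Equiv.swap i j) * H.x j = H.x i * H.s (Equiv.swap i j) := by
  rw [H.sx, Equiv.swap_apply_right]

lemma sx_swap' (i j : Fin n) :
    H.s (Equiv.swap i j) * H.x i = H.x j * H.s (Equiv.swap i j) := by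
  rw [H.sx, Equiv.swap_apply_left]

lemma sum_erase_x (i : Fin n) : ∑ j ∈ Finset.univ.erase i, H.x j = - H.x i := by
  have h := Finset.add_sum_erase Finset.univ H.x (Finset.mem_univ i)
  rw [H.sumx] at h
  exact (neg_eq_of_add_eq_zero_right h).symm

lemma card_er (i : Fin n) (hn : 1 ≤ n) : (((Finset.univ.erase i).card : ℕ) : ℂ) = (n : ℂ) - 1 := by
  rw [Finset.card_erase_of_mem (Finset.mem_univ i), Finset.card_univ, Fintype.card_fin,
    Nat.cast_sub hn, Nat.cast_one]

lemma Bii (i : Fin n) (hn : 1 ≤ n) : H.y i * H.x i - H.x i * H.y i =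
    (((n : ℂ) - 1) / n) • 1 - cc n • ∑ j ∈ Finset.univ.erase i, H.s (Equiv.swap i j) := by
  have h1 : H.x i = - ∑ j ∈ Finset.univ.erase i, H.x j := by
    rw [sum_erase_x, neg_neg]
  have h2 : H.y i * H.x i - H.x i * H.y i =
      - ∑ j ∈ Finset.univ.erase i, (H.y i * H.x j - H.x j * H.y i) := by
    rw [Finset.sum_sub_distrib, ← Finset.mul_sum, ← Finset.sum_mul, sum_erase_x]
    noncomm_ring
  rw [h2]
  have h3 : ∑ j ∈ Finset.univ.erase i, (H.y i * H.x j - H.x j * H.y i) =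
      ∑ j ∈ Finset.univ.erase i, (cc n • H.s (Equiv.swap i j) - (1 / (n : ℂ)) • 1) := by
    apply Finset.sum_congr rfl
    intro j hj
    exact H.yx i j (Finset.ne_of_mem_erase hj).symm
  rw [h3, Finset.sum_sub_distrib, Finset.sum_const, ← Finset.smul_sum,
    ← Nat.cast_smul_eq_nsmul ℂ, card_er i hn, smul_smul]
  have h4 : ((n : ℂ) - 1) * (1 / (n : ℂ)) = ((n : ℂ) - 1) / n := by ring
  rw [h4]
  abel

lemma comm_F (i : Fin n) (hn : 1 ≤ n) :
    H.y i * (∑ j, H.x j * H.x j) - (∑ j, H.x j * H.x j) * H.y i = (2 : ℂ) • H.x i := by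
  have hn0 : (n : ℂ) ≠ 0 := Nat.cast_ne_zero.2 (by omega)
  have h1 : H.y i * (∑ j, H.x j * H.x j) - (∑ j, H.x j * H.x j) * H.y i =
      ∑ j, ((H.y i * H.x j - H.x j * H.y i) * H.x j +
        H.x j * (H.y i * H.x j - H.x j * H.y i)) := by
    rw [Finset.mul_sum, Finset.sum_mul, ← Finset.sum_sub_distrib]
    apply Finset.sum_congr rfl
    intro j _
    noncomm_ring
  rw [h1, ← Finset.add_sum_erase Finset.univ _ (Finset.mem_univ i)]
  have h2 : ∑ j ∈ Finset.univ.erase i, ((H.y i * H.x j - H.x j * H.y i) * H.x j +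
        H.x j * (H.y i * H.x j - H.x j * H.y i)) =
      cc n • ∑ j ∈ Finset.univ.erase i, ((H.x i + H.x j) * H.s (Equiv.swap i j)) +
        (2 / (n : ℂ)) • H.x i := by
    have h3 : ∀ j ∈ Finset.univ.erase i, ((H.y i * H.x j - H.x j * H.y i) * H.x j +
        H.x j * (H.y i * H.x j - H.x j * H.y i)) =
        cc n • ((H.x i + H.x j) * H.s (Equiv.swap i j)) - (2 / (n : ℂ)) • H.x j := by
      intro j hj
      rw [H.yx i j (Finset.ne_of_mem_erase hj).symm, sub_mul, mul_sub, smul_mul_assoc,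
        smul_mul_assoc, mul_smul_comm, mul_smul_comm, one_mul, mul_one, sx_swap, add_mul]
      module
    rw [Finset.sum_congr rfl h3, Finset.sum_sub_distrib, ← Finset.smul_sum, ← Finset.smul_sum,
      sum_erase_x]
    module
  have h4 : (H.y i * H.x i - H.x i * H.y i) * H.x i +
        H.x i * (H.y i * H.x i - H.x i * H.y i) =
      (2 * (((n : ℂ) - 1) / n)) • H.x i -
        cc n • ∑ j ∈ Finset.univ.erase i, ((H.x i + H.x j) * H.s (Equiv.swap i j)) := by
    have h5 : ∑ j ∈ Finset.univ.erase i, ((H.x i + H.x j) * H.s (Equiv.swap i j)) =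
        (∑ j ∈ Finset.univ.erase i, H.s (Equiv.swap i j)) * H.x i +
          H.x i * ∑ j ∈ Finset.univ.erase i, H.s (Equiv.swap i j) := by
      rw [Finset.sum_mul, Finset.mul_sum, ← Finset.sum_add_distrib]
      apply Finset.sum_congr rfl
      intro j _
      rw [sx_swap', add_mul]
      abel
    rw [h5, Bii H i hn, sub_mul, mul_sub, smul_mul_assoc, smul_mul_assoc, mul_smul_comm,
      mul_smul_comm, one_mul, mul_one]
    module
  rw [h2, h4]
  have h6 : (2 : ℂ) = 2 * (((n : ℂ) - 1) / n) + 2 / (n : ℂ) := by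
    field_simp
    ring
  conv_rhs => rw [h6]
  module

end

/-- **HEU**. -/
theorem c_heu : S_HEU := by
  intro n V _ _ H hn
  have hn1 : 1 ≤ n := by omega
  have hn0 : (n : ℂ) ≠ 0 := Nat.cast_ne_zero.2 (by omega)
  set F : Module.End ℂ V := ∑ i, H.x i * H.x i with hF
  set S : Module.End ℂ V := ∑ i, ∑ j ∈ Finset.univ.erase i, H.s (Equiv.swap i j) with hS
  have h1 : (∑ i, H.y i * H.y i) * F - F * (∑ i, H.y i * H.y i) =
      ∑ i, (H.y i * (H.y i * F - F * H.y i) + (H.y i * F - F * H.y i) * H.y i) := by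
    rw [Finset.sum_mul, Finset.mul_sum, ← Finset.sum_sub_distrib]
    apply Finset.sum_congr rfl
    intro j _
    noncomm_ring
  have h2 : ∀ i, (H.y i * (H.y i * F - F * H.y i) + (H.y i * F - F * H.y i) * H.y i) =
      (4 : ℂ) • (H.x i * H.y i) + ((2 * (((n : ℂ) - 1) / n)) • 1 -
        (2 * cc n) • ∑ j ∈ Finset.univ.erase i, H.s (Equiv.swap i j)) := by
    intro i
    rw [hF, comm_F H.toHMod i hn1, mul_smul_comm, smul_mul_assoc]
    have h3 := Bii H.toHMod i hn1
    have h4 : H.y i * H.x i = H.x i * H.y i + ((((n : ℂ) - 1) / n) • 1 -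
        cc n • ∑ j ∈ Finset.univ.erase i, H.s (Equiv.swap i j)) := by
      rw [← h3]; abel
    rw [h4]
    module
  rw [h1, Finset.sum_congr rfl (fun i _ => h2 i), Finset.sum_add_distrib, Finset.sum_sub_distrib,
    ← Finset.smul_sum, ← Finset.smul_sum, ← Finset.smul_sum, H.xy, Finset.sum_const,
    Finset.card_univ, Fintype.card_fin, ← Nat.cast_smul_eq_nsmul ℂ]
  have h5 : ∑ i : Fin n, ∑ j ∈ Finset.univ.erase i,
      ((1 : Module.End ℂ V) - H.s (Equiv.swap i j)) = ((n : ℂ) * ((n : ℂ) - 1)) • 1 - S := by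
    have h6 : ∀ i : Fin n, ∑ j ∈ Finset.univ.erase i,
        ((1 : Module.End ℂ V) - H.s (Equiv.swap i j)) =
        ((n : ℂ) - 1) • 1 - ∑ j ∈ Finset.univ.erase i, H.s (Equiv.swap i j) := by
      intro i
      rw [Finset.sum_sub_distrib, Finset.sum_const, ← Nat.cast_smul_eq_nsmul ℂ, card_er i hn1]
    rw [Finset.sum_congr rfl (fun i _ => h6 i), Finset.sum_sub_distrib, Finset.sum_const,
      Finset.card_univ, Fintype.card_fin, ← Nat.cast_smul_eq_nsmul ℂ, smul_smul]
  rw [h5]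
  have h7 : cc n * n = n + 1 := by
    unfold cc
    field_simp
  have h8 : 2 * (((n : ℂ) - 1) / n) * n = 2 * ((n : ℂ) - 1) := by
    field_simp
  rw [smul_smul, h8]
  have h9 : (2 * (n : ℂ) * ((n : ℂ) - 1)) = 2 * (cc n * n) * ((n : ℂ) - 1) - 2 * ((n : ℂ) - 1) := by
    rw [h7]; ring
  rw [h9]
  module

end

end Pool.Agent.Helper62.HM
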